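import Pool.Agent.V5helper43.WP.Stm

/-!
# Project WP, job LEV: one level
-/

set_option autoImplicit false

open Finset MeasureTheory ProbabilityTheory

namespace Pool.Agent.V5helper98.WP

open Pool.Agent.V5helper43.WP

/-- **Job LEV.** -/
theorem t_LEV (hG : S_GAIN) (hF : S_FUB) (hD : S_DEP) : S_LEV := by
  classical
  intro Ω _ μ _ θ hm hind k q j X i n ℓ w R b b' c0 A A' hk hiq hR hwR h4 hℓw hc0 hA h16 h8 hp hb
  obtain ⟨S, hS⟩ : ∃ S, S = blk q X (i + 1) := ⟨_, rfl⟩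
  obtain ⟨P, hP⟩ : ∃ P, P = (range (n + 1)).filter (fun x => x % q ≤ i) := ⟨_, rfl⟩
  obtain ⟨ε, hε⟩ : ∃ ε, ε = Real.exp (-((c0 * ℓ / (4 * w)) * (S.card : ℝ) / 4)) := ⟨_, rfl⟩
  rw [← hS] at hR h8 hp ⊢
  rw [← hε]
  have hPS : Disjoint P S := by
    rw [Finset.disjoint_left]
    intro x hx hx'
    rw [hP, mem_filter] at hx
    rw [hS, blk, mem_filter] at hx'
    omega
  -- agreement of `θ` and its restriction
  have hag : ∀ t : ℕ → ℕ, ∀ x ≤ n, x % q ≤ i → t x = cut P t x := by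
    intro t x hx hxi
    unfold cut
    rw [if_pos]
    rw [hP, mem_filter, mem_range]
    exact ⟨by omega, hxi⟩
  have hto : ∀ t : ℕ → ℕ, ∀ z ≤ n, z ∈ W k q j X t i → z ∈ W k q j X (cut P t) i :=
    fun t => hD k q j X t (cut P t) i n hk (hag t)
  have hfrom : ∀ t : ℕ → ℕ, ∀ z ≤ n, z ∈ W k q j X (cut P t) i → z ∈ W k q j X t i :=
    fun t => hD k q j X (cut P t) t i n hk (fun x hx hxi => (hag t x hx hxi).symm)
  let G : (ℕ → ℕ) → Prop := fun s => ∀ y, b ≤ y → y ≤ n → A ≤ (cw (W k q j X s i) y (ℓ / 4) : ℝ)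
  let E : ℕ → (ℕ → ℕ) → (ℕ → ℕ) → Prop := fun y s t =>
    (({z | (∃ x ∈ S, ∃ v ∈ W k q j X s i, z = v + (x ^ k + t x)) ∧ z ≤ y ∧ y < z + ℓ}.ncard : ℕ) :
      ℝ) < A'
  have hx2 : ∀ x ∈ S, x ^ k ≤ (2 * X) ^ k := by
    intro x hx
    rw [hS, blk, mem_filter, mem_Icc] at hx
    exact Nat.pow_le_pow_left hx.1.2 k
  -- the bound for one `y`
  have hone : ∀ y, b' ≤ y → y ≤ n →
      μ.real {ω | G (cut P (fun x => θ x ω)) ∧ E y (cut P (fun x => θ x ω)) (fun x => θ x ω)} ≤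
        ε := by
    intro y hy1 hy2
    refine hF Ω μ θ hm hind P S hPS G (E y) ε ?_ ?_ ?_
    · rw [hε]
      exact (Real.exp_pos _).le
    · intro s t t' htt
      have hset : {z | (∃ x ∈ S, ∃ v ∈ W k q j X s i, z = v + (x ^ k + t x)) ∧ z ≤ y ∧ y < z + ℓ} =
          {z | (∃ x ∈ S, ∃ v ∈ W k q j X s i, z = v + (x ^ k + t' x)) ∧ z ≤ y ∧ y < z + ℓ} := by
        ext z
        simp only [Set.mem_setOf_eq]
        refine and_congr_left fun _ => ?_
        constructor
        · rintro ⟨x, hx, v, hv, rfl⟩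
          exact ⟨x, hx, v, hv, by rw [htt x hx]⟩
        · rintro ⟨x, hx, v, hv, rfl⟩
          exact ⟨x, hx, v, hv, by rw [htt x hx]⟩
      show (_ < A') ↔ (_ < A')
      rw [hset]
    · intro s hs
      have key := hG Ω μ θ hm hind S (fun x => x ^ k) (W k q j X s i) y ℓ w R c0 A' A hR hwR h4 hℓw
        hc0 hp hA h16 h8 ?_
      · rw [hε]
        exact key
      · intro x hx
        have h1 := hx2 x hx
        have h2 := hs (y + ℓ / 4 - x ^ k - ℓ) (by omega) (by omega)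
        have h3 : {v | v ∈ W k q j X s i ∧ y < v + x ^ k + ℓ ∧ v + x ^ k + ℓ ≤ y + ℓ / 4} =
            {v | v ∈ W k q j X s i ∧ v ≤ y + ℓ / 4 - x ^ k - ℓ ∧
              y + ℓ / 4 - x ^ k - ℓ < v + ℓ / 4} := by
          ext v
          simp only [Set.mem_setOf_eq]
          refine and_congr_right fun _ => ?_
          omega
        show A ≤ (({v | v ∈ W k q j X s i ∧ y < v + x ^ k + ℓ ∧
          v + x ^ k + ℓ ≤ y + ℓ / 4}.ncard : ℕ) : ℝ)
        rw [h3]
        exact h2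
  -- the union bound
  have hsub : {ω | ∃ y, b' ≤ y ∧ y ≤ n ∧
      (cw (W k q j X (fun x => θ x ω) (i + 1)) y ℓ : ℝ) < A'} ⊆
      {ω | ∃ y, b ≤ y ∧ y ≤ n ∧ (cw (W k q j X (fun x => θ x ω) i) y (ℓ / 4) : ℝ) < A} ∪
      ⋃ y ∈ (range (n + 1)).filter (fun y => b' ≤ y),
        {ω | G (cut P (fun x => θ x ω)) ∧ E y (cut P (fun x => θ x ω)) (fun x => θ x ω)} := by
    rintro ω ⟨y, hy1, hy2, hy3⟩
    by_cases hω : ∃ y, b ≤ y ∧ y ≤ n ∧ (cw (W k q j X (fun x => θ x ω) i) y (ℓ / 4) : ℝ) < A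
    · exact Or.inl hω
    · right
      push Not at hω
      refine Set.mem_biUnion (x := y) ?_ ⟨?_, ?_⟩
      · show y ∈ (range (n + 1)).filter (fun y => b' ≤ y)
        rw [mem_filter, mem_range]
        exact ⟨by omega, hy1⟩
      · intro y' hy1' hy2'
        have h1 := hω y' hy1' hy2'
        have h2 : cw (W k q j X (fun x => θ x ω) i) y' (ℓ / 4) =
            cw (W k q j X (cut P (fun x => θ x ω)) i) y' (ℓ / 4) := by
          unfold cw
          congr 1
          ext v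
          simp only [Set.mem_setOf_eq]
          constructor
          · rintro ⟨h3, h4, h5⟩
            exact ⟨hto _ v (h4.trans hy2') h3, h4, h5⟩
          · rintro ⟨h3, h4, h5⟩
            exact ⟨hfrom _ v (h4.trans hy2') h3, h4, h5⟩
        rw [← h2]
        exact h1
      · refine lt_of_le_of_lt ?_ hy3
        have h1 : {z | (∃ x ∈ S, ∃ v ∈ W k q j X (cut P (fun x => θ x ω)) i,
            z = v + (x ^ k + θ x ω)) ∧ z ≤ y ∧ y < z + ℓ} ⊆
            {v | v ∈ W k q j X (fun x => θ x ω) (i + 1) ∧ v ≤ y ∧ y < v + ℓ} := by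
          rintro z ⟨⟨x, hx, v, hv, hz⟩, hz1, hz2⟩
          refine ⟨?_, hz1, hz2⟩
          rw [hS] at hx
          exact ⟨x, hx, v, hfrom _ v (by omega) hv, hz⟩
        have h2 : {v | v ∈ W k q j X (fun x => θ x ω) (i + 1) ∧ v ≤ y ∧ y < v + ℓ}.Finite :=
          (Set.finite_Iic y).subset fun v hv => hv.2.1
        exact_mod_cast Set.ncard_le_ncard h1 h2
  refine (measureReal_mono hsub).trans ((measureReal_union_le _ _).trans ?_)
  refine add_le_add le_rfl ((measureReal_biUnion_finset_le _ _).trans ?_)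
  calc ∑ y ∈ (range (n + 1)).filter (fun y => b' ≤ y),
        μ.real {ω | G (cut P (fun x => θ x ω)) ∧ E y (cut P (fun x => θ x ω)) (fun x => θ x ω)}
      ≤ ∑ y ∈ (range (n + 1)).filter (fun y => b' ≤ y), ε := by
        refine sum_le_sum fun y hy => ?_
        rw [mem_filter, mem_range] at hy
        exact hone y hy.2 (by omega)
    _ = (((range (n + 1)).filter (fun y => b' ≤ y)).card : ℝ) * ε := by
        rw [sum_const, nsmul_eq_mul]
    _ ≤ (n + 1) * ε := by
        refine mul_le_mul_of_nonneg_right ?_ (by rw [hε]; exact (Real.exp_pos _).le)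
        have h1 := card_filter_le (range (n + 1)) (fun y => b' ≤ y)
        rw [card_range] at h1
        exact_mod_cast h1

end Pool.Agent.V5helper98.WP
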